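import Mathlib
import Pool.Agent.H21.CQ.Core
import Pool.Agent.H9.IQ.Pair
import Pool.Agent.H9.IQ.Sub

/-!
# Relative invariants of several vectors: cocompact groups
-/

set_option autoImplicit false

open MvPolynomial Matrix Module Filter Topology

namespace Pool.Agent.H9.IQ

/-- the values of the variables `x (i, j)`: coordinate `i` of the vector `v j` -/
def flat {n d : ℕ} (v : Fin d → Fin n → ℝ) : Fin n × Fin d → ℝ := fun p => v p.2 p.1

/-- the action of `A` on `d` vectors as a matrix -/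
def big {n : ℕ} (d : ℕ) (A : Matrix (Fin n) (Fin n) ℝ) :
    Matrix (Fin n × Fin d) (Fin n × Fin d) ℝ :=
  Matrix.of fun p q => if p.2 = q.2 then A p.1 q.1 else 0

theorem big_mulVec {n d : ℕ} (A : Matrix (Fin n) (Fin n) ℝ) (v : Fin d → Fin n → ℝ) :
    big d A *ᵥ flat v = flat fun j => A *ᵥ v j := by
  funext p
  show ∑ q : Fin n × Fin d, (if p.2 = q.2 then A p.1 q.1 else 0) * v q.2 q.1 =
    ∑ i, A p.1 i * v p.2 i
  rw [Fintype.sum_prod_type]
  refine Finset.sum_congr rfl fun i _ => ?_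
  rw [Finset.sum_eq_single p.2]
  · rw [if_pos rfl]
  · intro j _ hj
    rw [if_neg (Ne.symm hj), zero_mul]
  · intro h
    exact absurd (Finset.mem_univ _) h

theorem big_transpose {n d : ℕ} (A : Matrix (Fin n) (Fin n) ℝ) : (big d A)ᵀ = big d Aᵀ := by
  ext p q
  show (if q.2 = p.2 then A q.1 p.1 else 0) = if p.2 = q.2 then A q.1 p.1 else 0
  simp only [eq_comm]

theorem big_cont {n d : ℕ} : Continuous fun A : Matrix (Fin n) (Fin n) ℝ => big d A := by
  refine continuous_matrix fun p q => ?_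
  show Continuous fun A : Matrix (Fin n) (Fin n) ℝ => if p.2 = q.2 then A p.1 q.1 else 0
  split_ifs
  · exact continuous_id.matrix_elem _ _
  · exact continuous_const

theorem flat_surj {n d : ℕ} (x : Fin n × Fin d → ℝ) :
    x = flat fun (j : Fin d) (i : Fin n) => x (i, j) := rfl

theorem eval_big {n d : ℕ} (A : Matrix (Fin n) (Fin n) ℝ) (p : MvPolynomial (Fin n × Fin d) ℝ)
    (v : Fin d → Fin n → ℝ) :
    eval (flat v) (lsub (big d A) p) = eval (flat fun j => A *ᵥ v j) p := by
  rw [eval_lsub, big_mulVec]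

theorem ext_flat {n d : ℕ} (p q : MvPolynomial (Fin n × Fin d) ℝ)
    (h : ∀ v : Fin d → Fin n → ℝ, eval (flat v) p = eval (flat v) q) : p = q :=
  MvPolynomial.funext fun x => by rw [flat_surj x]; exact h _

private theorem pair_C_left {n d : ℕ} (c : ℝ) (D p : MvPolynomial (Fin n × Fin d) ℝ) :
    pair (C c * D) p = c * pair D p := by
  have h1 : ∀ q : MvPolynomial (Fin n × Fin d) ℝ, ∀ S : Finset (Fin n × Fin d →₀ ℕ),
      q.support ⊆ S → pair q p = ∑ α ∈ S, coeff α q * (∏ i, ((α i).factorial : ℝ)) * coeff α p := by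
    intro q S hS
    refine Finset.sum_subset hS fun α _ hα => ?_
    rw [notMem_support_iff.1 hα, zero_mul, zero_mul]
  have hs : (C c * D).support ⊆ D.support := by
    intro α hα
    rw [MvPolynomial.mem_support_iff, coeff_C_mul] at hα
    rw [MvPolynomial.mem_support_iff]
    exact right_ne_zero_of_mul hα
  rw [h1 _ _ hs, h1 D _ subset_rfl, Finset.mul_sum]
  refine Finset.sum_congr rfl fun α _ => ?_
  rw [coeff_C_mul]
  ring

private theorem pair_self_ne {n d : ℕ} (q : MvPolynomial (Fin n × Fin d) ℝ) (hq : q ≠ 0) :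
    pair q q ≠ 0 := by
  have h1 : 0 < pair q q := by
    unfold pair
    apply Finset.sum_pos
    · intro α hα
      have h2 : coeff α q ≠ 0 := MvPolynomial.mem_support_iff.1 hα
      have h3 : (0 : ℝ) < ∏ i, ((α i).factorial : ℝ) :=
        Finset.prod_pos fun i _ => by exact_mod_cast Nat.factorial_pos _
      have h4 : coeff α q * (∏ i, ((α i).factorial : ℝ)) * coeff α q =
          (∏ i, ((α i).factorial : ℝ)) * coeff α q ^ 2 := by ring
      rw [h4]
      positivity
    · rwa [MvPolynomial.support_nonempty]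
  exact h1.ne'

private theorem indep_of_ne {n d k : ℕ} (hk : 0 < k) (P : (Fin d → Fin n → ℝ) → ℝ)
    (hwt : ∀ (A : Matrix (Fin d) (Fin d) ℝ) (v : Fin d → Fin n → ℝ),
      P (fun j => ∑ i, A i j • v i) = A.det ^ k * P v) (v : Fin d → Fin n → ℝ) (hv : P v ≠ 0) :
    LinearIndependent ℝ v := by
  classical
  by_contra hli
  rw [Fintype.not_linearIndependent_iff] at hli
  obtain ⟨c, hc0, i₀, hi₀⟩ := hli
  set A : Matrix (Fin d) (Fin d) ℝ := Matrix.of fun i j =>
    (if i = j then (1 : ℝ) else 0) - (if j = i₀ then c i / c i₀ else 0) with hA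
  have hdet : A.det = 0 := by
    apply Matrix.det_eq_zero_of_row_eq_zero i₀
    intro j
    rw [hA, Matrix.of_apply]
    by_cases hj : j = i₀
    · subst hj; simp [hi₀]
    · simp [hj, Ne.symm hj]
  have hvA : (fun j => ∑ i, A i j • v i) = v := by
    funext j
    have h1 : ∀ i, A i j • v i = (if i = j then v i else 0) -
        (if j = i₀ then (c i₀)⁻¹ • (c i • v i) else 0) := by
      intro i
      rw [hA, Matrix.of_apply, sub_smul]
      congr 1
      · split_ifs <;> simp
      · split_ifs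
        · rw [smul_smul, div_eq_inv_mul]
        · simp
    rw [Finset.sum_congr rfl fun i _ => h1 i, Finset.sum_sub_distrib]
    simp only [Finset.sum_ite_eq', Finset.mem_univ, if_true]
    split_ifs
    · rw [← Finset.smul_sum, hc0, smul_zero, sub_zero]
    · simp
  have h2 := hwt A v
  rw [hvA, hdet, zero_pow hk.ne', zero_mul] at h2
  exact hv h2

/-- the weight condition -/
def Wt {n d : ℕ} (K : ℕ) (p : MvPolynomial (Fin n × Fin d) ℝ) : Prop :=
  ∀ (A : Matrix (Fin d) (Fin d) ℝ) (v : Fin d → Fin n → ℝ),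
    eval (flat fun j => ∑ i, A i j • v i) p = A.det ^ K * eval (flat v) p

private theorem Wt.pow {n d K : ℕ} {p : MvPolynomial (Fin n × Fin d) ℝ} (h : Wt K p) (s : ℕ) :
    Wt (K * s) (p ^ s) := by
  intro A v
  rw [map_pow, map_pow, h A v, mul_pow, pow_mul]

private theorem Wt.smul {n d K : ℕ} {p : MvPolynomial (Fin n × Fin d) ℝ} (h : Wt K p) (c : ℝ)
    (A : Matrix (Fin n) (Fin n) ℝ) :
    lsub (big d (c • A)) p = C (c ^ (d * K)) * lsub (big d A) p := by
  refine ext_flat _ _ fun v => ?_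
  rw [map_mul, eval_C, eval_big, eval_big]
  have h1 : (fun j => (c • A) *ᵥ v j) =
      fun j => ∑ i, (c • (1 : Matrix (Fin d) (Fin d) ℝ)) i j • (A *ᵥ v i) := by
    funext j
    rw [Matrix.smul_mulVec]
    rw [Finset.sum_eq_single j]
    · simp
    · intro i _ hij
      simp [hij]
    · intro hj
      exact absurd (Finset.mem_univ _) hj
  rw [h1, h, Matrix.det_smul, Matrix.det_one, mul_one, Fintype.card_fin, ← pow_mul]

private theorem bdd {n : ℕ} (H Γ : Subgroup (SpecialLinearGroup (Fin n) ℝ))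
    (hc : ∃ C : Set (SpecialLinearGroup (Fin n) ℝ), IsCompact C ∧
      ∀ g, ∃ γ ∈ Γ, ∃ h ∈ H, γ * g * h ∈ C)
    (F : SpecialLinearGroup (Fin n) ℝ → ℝ) (hF : Continuous F)
    (hl : ∀ γ ∈ Γ, ∀ g, F (γ * g) = F g) (hr : ∀ h ∈ H, ∀ g, F (g * h) = F g) :
    ∃ M, ∀ g, |F g| ≤ M := by
  obtain ⟨C, hC, hCg⟩ := hc
  obtain ⟨M, hM⟩ := hC.exists_bound_of_continuousOn hF.continuousOn
  refine ⟨M, fun g => ?_⟩
  obtain ⟨γ, hγ, h, hh, hgh⟩ := hCg g
  have h1 := hM _ hgh
  rwa [hr h hh, hl γ hγ] at h1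

/-- the determinant of the first `d` coordinates -/
private noncomputable def top {n d : ℕ} (hdn : d ≤ n) : MvPolynomial (Fin n × Fin d) ℝ :=
  (Matrix.of fun (i j : Fin d) =>
    (X (Fin.castLE hdn i, j) : MvPolynomial (Fin n × Fin d) ℝ)).det

private theorem eval_top {n d : ℕ} (hdn : d ≤ n) (v : Fin d → Fin n → ℝ) :
    eval (flat v) (top hdn) = (Matrix.of fun (i j : Fin d) => v j (Fin.castLE hdn i)).det := by
  rw [top, RingHom.map_det]
  congr 1
  ext i j
  simp [flat]

/-- restriction to the first coordinates -/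
private theorem lsub_top {n d K : ℕ} (hdn : d ≤ n) (p : MvPolynomial (Fin n × Fin d) ℝ)
    (hp : Wt K p) (g : Matrix (Fin n) (Fin n) ℝ) (c : Fin d → Fin n → ℝ)
    (hgc : ∀ i : Fin d, g *ᵥ Pi.single (Fin.castLE hdn i) 1 = c i) :
    lsub (big d (g * Matrix.diagonal fun i : Fin n => if (i : ℕ) < d then (1 : ℝ) else 0)) p =
      C (eval (flat c) p) * top hdn ^ K := by
  refine ext_flat _ _ fun v => ?_
  rw [eval_big, map_mul, map_pow, eval_C, eval_top]
  have h1 : ∀ j, (g * Matrix.diagonal fun i : Fin n => if (i : ℕ) < d then (1 : ℝ) else 0) *ᵥ v j =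
      ∑ i : Fin d, (Matrix.of fun (i j : Fin d) => v j (Fin.castLE hdn i)) i j • c i := by
    intro j
    rw [← Matrix.mulVec_mulVec]
    have h2 : (Matrix.diagonal fun i : Fin n => if (i : ℕ) < d then (1 : ℝ) else 0) *ᵥ v j =
        ∑ i : Fin d, v j (Fin.castLE hdn i) • (Pi.single (Fin.castLE hdn i) 1 : Fin n → ℝ) := by
      ext l
      rw [Matrix.mulVec_diagonal, Finset.sum_apply]
      simp only [Pi.smul_apply, smul_eq_mul, Pi.single_apply]
      by_cases hl : (l : ℕ) < d
      · rw [if_pos hl, one_mul, Finset.sum_eq_single (⟨l, hl⟩ : Fin d)]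
        · have : Fin.castLE hdn ⟨l, hl⟩ = l := rfl
          rw [this, if_pos rfl, mul_one]
        · intro i _ hi
          rw [if_neg, mul_zero]
          intro h
          apply hi
          ext
          exact (congrArg Fin.val h).symm
        · intro h
          exact absurd (Finset.mem_univ _) h
      · rw [if_neg hl, zero_mul]
        symm
        apply Finset.sum_eq_zero
        intro i _
        rw [if_neg, mul_zero]
        intro h
        apply hl
        rw [h]
        exact i.2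
    rw [h2, Matrix.mulVec_sum]
    refine Finset.sum_congr rfl fun i _ => ?_
    rw [Matrix.mulVec_smul, hgc]
    rfl
  rw [funext h1, hp]
  ring

theorem core_d {n d : ℕ} (hd : 0 < d) (hdn : d < n)
    (H Γ : Subgroup (SpecialLinearGroup (Fin n) ℝ))
    (hc : ∃ C : Set (SpecialLinearGroup (Fin n) ℝ), IsCompact C ∧
      ∀ g, ∃ γ ∈ Γ, ∃ h ∈ H, γ * g * h ∈ C)
    (D f : MvPolynomial (Fin n × Fin d) ℝ) (k r : ℕ) (hk : 0 < k) (hr : 0 < r)
    (hD : Wt k D) (hf : Wt r f) (hD0 : D ≠ 0)
    (hDi : ∀ h ∈ H, ∀ v : Fin d → Fin n → ℝ,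
      eval (flat fun j => (h : Matrix (Fin n) (Fin n) ℝ)ᵀ *ᵥ v j) D = eval (flat v) D)
    (hfi : ∀ γ ∈ Γ, ∀ v : Fin d → Fin n → ℝ,
      eval (flat fun j => (γ : Matrix (Fin n) (Fin n) ℝ) *ᵥ v j) f = eval (flat v) f) : f = 0 := by
  by_contra hf0
  set D' := D ^ r with hD'
  set f' := f ^ k with hf'
  set K := k * r with hK
  have hK0 : 0 < K := Nat.mul_pos hk hr
  have hDh : Wt K D' := hD.pow r
  have hfh : Wt K f' := by
    have h := hf.pow k
    rwa [mul_comm] at h
  have hmul : ∀ (A B : Matrix (Fin n) (Fin n) ℝ) (p : MvPolynomial (Fin n × Fin d) ℝ),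
      lsub (big d (A * B)) p = lsub (big d B) (lsub (big d A) p) := by
    intro A B p
    refine ext_flat _ _ fun v => ?_
    rw [eval_big, eval_big, eval_big]
    simp only [Matrix.mulVec_mulVec]
  have hadj : ∀ (A : Matrix (Fin n) (Fin n) ℝ) (p q : MvPolynomial (Fin n × Fin d) ℝ),
      pair (lsub (big d Aᵀ) p) q = pair p (lsub (big d A) q) := by
    intro A p q
    rw [← big_transpose]
    exact pair_lsub _ _ _
  have hDs : ∀ h ∈ H, lsub (big d (h : Matrix (Fin n) (Fin n) ℝ)ᵀ) D' = D' := fun h hh =>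
    ext_flat _ _ fun v => by rw [eval_big, hD', map_pow, map_pow, hDi h hh]
  have hfs : ∀ γ ∈ Γ, lsub (big d (γ : Matrix (Fin n) (Fin n) ℝ)) f' = f' := fun γ hγ =>
    ext_flat _ _ fun v => by rw [eval_big, hf', map_pow, map_pow, hfi γ hγ]
  -- the bounded function
  let F : SpecialLinearGroup (Fin n) ℝ → ℝ := fun g =>
    pair D' (lsub (big d (g : Matrix (Fin n) (Fin n) ℝ)) f')
  have hFc : Continuous F := ((pair_cont D' f').comp big_cont).comp continuous_subtype_val
  obtain ⟨M, hM⟩ := bdd H Γ hc F hFc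
    (fun γ hγ g => by
      show pair D' (lsub (big d ((γ * g : SpecialLinearGroup (Fin n) ℝ) :
        Matrix (Fin n) (Fin n) ℝ)) f') = _
      rw [Matrix.SpecialLinearGroup.coe_mul, hmul, hfs γ hγ])
    (fun h hh g => by
      show pair D' (lsub (big d ((g * h : SpecialLinearGroup (Fin n) ℝ) :
        Matrix (Fin n) (Fin n) ℝ)) f') = _
      rw [Matrix.SpecialLinearGroup.coe_mul, hmul, ← hadj, hDs h hh])
  -- points where `f` and `D` do not vanish
  have hex : ∀ p : MvPolynomial (Fin n × Fin d) ℝ, p ≠ 0 →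
      ∃ v : Fin d → Fin n → ℝ, eval (flat v) p ≠ 0 := by
    intro p hp
    by_contra hcon
    push Not at hcon
    exact hp (ext_flat _ _ fun v => by rw [hcon v, map_zero])
  obtain ⟨a, ha⟩ := hex f hf0
  obtain ⟨b, hb⟩ := hex D hD0
  have hai : LinearIndependent ℝ a := indep_of_ne hr (fun v => eval (flat v) f) hf a ha
  have hbi : LinearIndependent ℝ b := indep_of_ne hk (fun v => eval (flat v) D) hD b hb
  have hei : LinearIndependent ℝ
      (fun i : Fin d => (Pi.single (Fin.castLE hdn.le i) 1 : Fin n → ℝ)) := by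
    have h1 := (Pi.basisFun ℝ (Fin n)).linearIndependent.comp (Fin.castLE hdn.le)
      (Fin.castLE_injective hdn.le)
    have h2 : (Pi.basisFun ℝ (Fin n) : Fin n → Fin n → ℝ) ∘ (Fin.castLE hdn.le) =
        fun i : Fin d => (Pi.single (Fin.castLE hdn.le i) 1 : Fin n → ℝ) := by
      funext i
      simp
    rwa [h2] at h1
  obtain ⟨g₁, hg₁⟩ := Pool.Agent.H21.CQ.exists_frame hdn _ a hei hai
  obtain ⟨g₂, hg₂⟩ := Pool.Agent.H21.CQ.exists_frame hdn _ b hei hbi
  -- diagonal matrices
  let T : ℝ → Matrix (Fin n) (Fin n) ℝ := fun t =>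
    Matrix.diagonal fun i => if (i : ℕ) < d then 1 else t ^ n
  let G : ℝ → ℝ := fun t => pair D' (lsub (big d ((g₁ : Matrix (Fin n) (Fin n) ℝ) * T t *
    (g₂ : Matrix (Fin n) (Fin n) ℝ)ᵀ)) f')
  have hTc : Continuous T := by
    refine Continuous.matrix_diagonal ?_
    refine continuous_pi fun i => ?_
    split_ifs
    · exact continuous_const
    · exact continuous_id.pow n
  have hGc : Continuous G := by
    refine ((pair_cont D' f').comp big_cont).comp ?_
    exact (continuous_const.matrix_mul hTc).matrix_mul continuous_const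
  have hG0 : G 0 = (eval (flat b) D' * eval (flat a) f') * pair (top hdn.le ^ K) (top hdn.le ^ K) := by
    set E : Matrix (Fin n) (Fin n) ℝ :=
      Matrix.diagonal fun i : Fin n => if (i : ℕ) < d then (1 : ℝ) else 0 with hE
    have hT0 : T 0 = E := by
      show Matrix.diagonal _ = _
      rw [hE]
      congr 1
      funext i
      rw [zero_pow (by omega)]
    have hEt : Eᵀ = E := Matrix.diagonal_transpose _
    have hEE : E * E = E := by
      rw [hE, Matrix.diagonal_mul_diagonal]
      congr 1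
      funext i
      split_ifs <;> simp
    show pair D' (lsub (big d ((g₁ : Matrix (Fin n) (Fin n) ℝ) * T 0 *
      (g₂ : Matrix (Fin n) (Fin n) ℝ)ᵀ)) f') = _
    rw [hT0, hmul, ← hadj, Matrix.transpose_transpose]
    have h1 : lsub (big d ((g₁ : Matrix (Fin n) (Fin n) ℝ) * E)) f' =
        lsub (big d E) (lsub (big d ((g₁ : Matrix (Fin n) (Fin n) ℝ) * E)) f') := by
      rw [← hmul, Matrix.mul_assoc, hEE]
    rw [h1, ← hadj, hEt, ← hmul, lsub_top hdn.le D' hDh _ b hg₂, lsub_top hdn.le f' hfh _ a hg₁,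
      pair_C_left, pair_C_mul]
    ring
  have hGt : ∀ t : ℝ, 0 < t → |G t| ≤ M * t ^ ((n - d) * (d * K)) := by
    intro t ht
    have hdet : (Matrix.diagonal fun i : Fin n =>
        if (i : ℕ) < d then (t ^ (n - d))⁻¹ else t ^ d).det = 1 := by
      rw [Matrix.det_diagonal, Finset.prod_ite, Finset.prod_const, Finset.prod_const]
      have h1 : (Finset.univ.filter fun i : Fin n => (i : ℕ) < d).card = d := by
        rw [Fin.card_filter_val_lt]
        omega
      have h2 : (Finset.univ.filter fun i : Fin n => ¬ (i : ℕ) < d).card = n - d := by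
        have h3 := Finset.card_filter_add_card_filter_not (s := (Finset.univ : Finset (Fin n)))
          (fun i : Fin n => (i : ℕ) < d)
        rw [h1, Finset.card_univ, Fintype.card_fin] at h3
        omega
      rw [h1, h2, inv_pow, ← pow_mul, ← pow_mul, mul_comm d (n - d)]
      exact inv_mul_cancel₀ (pow_ne_zero _ ht.ne')
    let z : SpecialLinearGroup (Fin n) ℝ :=
      ⟨Matrix.diagonal fun i : Fin n => if (i : ℕ) < d then (t ^ (n - d))⁻¹ else t ^ d, hdet⟩
    have hz : T t = (t ^ (n - d)) • (z : Matrix (Fin n) (Fin n) ℝ) := by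
      ext i j
      show Matrix.diagonal _ i j = t ^ (n - d) * Matrix.diagonal _ i j
      rw [Matrix.diagonal_apply, Matrix.diagonal_apply]
      by_cases hij : i = j
      · rw [if_pos hij, if_pos hij]
        by_cases hi : (i : ℕ) < d
        · rw [if_pos hi, if_pos hi, mul_inv_cancel₀ (pow_ne_zero _ ht.ne')]
        · rw [if_neg hi, if_neg hi, ← pow_add]
          congr 1
          omega
      · rw [if_neg hij, if_neg hij, mul_zero]
    have h1 : (g₁ : Matrix (Fin n) (Fin n) ℝ) * T t * (g₂ : Matrix (Fin n) (Fin n) ℝ)ᵀ =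
        (t ^ (n - d)) • ((g₁ * z * g₂.transpose : SpecialLinearGroup (Fin n) ℝ) :
          Matrix (Fin n) (Fin n) ℝ) := by
      rw [hz, Matrix.mul_smul, Matrix.smul_mul, Matrix.SpecialLinearGroup.coe_mul,
        Matrix.SpecialLinearGroup.coe_mul, Matrix.SpecialLinearGroup.coe_transpose]
    have h2 : G t = (t ^ (n - d)) ^ (d * K) * F (g₁ * z * g₂.transpose) := by
      show pair D' (lsub _ f') = _
      rw [h1, hfh.smul, pair_C_mul]
    rw [h2, abs_mul, abs_of_nonneg (pow_nonneg (pow_nonneg ht.le _) _), ← pow_mul, mul_comm]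
    exact mul_le_mul_of_nonneg_right (hM _) (pow_nonneg ht.le _)
  have hlim : Tendsto (fun t : ℝ => M * t ^ ((n - d) * (d * K))) (𝓝[>] 0) (𝓝 0) := by
    have h1 : Continuous fun t : ℝ => M * t ^ ((n - d) * (d * K)) := by fun_prop
    have h2 := h1.tendsto 0
    rw [zero_pow (Nat.mul_pos (by omega) (Nat.mul_pos hd hK0)).ne', mul_zero] at h2
    exact h2.mono_left nhdsWithin_le_nhds
  have hG00 : G 0 = 0 := by
    have h1 : Tendsto (fun t => |G t|) (𝓝[>] 0) (𝓝 |G 0|) :=
      (hGc.abs.tendsto 0).mono_left nhdsWithin_le_nhds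
    have h2 : |G 0| ≤ 0 := le_of_tendsto_of_tendsto h1 hlim
      (eventually_nhdsWithin_of_forall fun t ht => hGt t ht)
    exact abs_nonpos_iff.1 h2
  rw [hG0, hD', hf', map_pow, map_pow] at hG00
  have htop : top (n := n) hdn.le ≠ 0 := by
    intro h0
    have h1 := eval_top hdn.le (fun j => (Pi.single (Fin.castLE hdn.le j) 1 : Fin n → ℝ))
    rw [h0, map_zero] at h1
    have h2 : (Matrix.of fun (i j : Fin d) =>
        (Pi.single (Fin.castLE hdn.le j) 1 : Fin n → ℝ) (Fin.castLE hdn.le i)) = 1 := by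
      ext i j
      rw [Matrix.of_apply, Pi.single_apply, Matrix.one_apply]
      congr 1
      simp
    rw [h2, Matrix.det_one] at h1
    exact zero_ne_one h1
  exact mul_ne_zero (mul_ne_zero (pow_ne_zero _ hb) (pow_ne_zero _ ha))
    (pair_self_ne _ (pow_ne_zero _ htop)) hG00

end Pool.Agent.H9.IQ
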