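import Pool.Agent.H9.IQ.CoreD

/-!
# Relative invariants of several vectors: the dual statement
-/

set_option autoImplicit false

open MvPolynomial Matrix Module

namespace Pool.Agent.H9.IQ

/-- the automorphism `g ↦ (g⁻¹)ᵀ` -/
private def tau (n : ℕ) : SpecialLinearGroup (Fin n) ℝ →* SpecialLinearGroup (Fin n) ℝ where
  toFun g := (g⁻¹).transpose
  map_one' := by
    apply Subtype.ext
    rw [Matrix.SpecialLinearGroup.coe_transpose, inv_one, Matrix.SpecialLinearGroup.coe_one,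
      Matrix.transpose_one]
  map_mul' g h := by
    apply Subtype.ext
    rw [Matrix.SpecialLinearGroup.coe_transpose, Matrix.SpecialLinearGroup.coe_mul,
      Matrix.SpecialLinearGroup.coe_transpose, Matrix.SpecialLinearGroup.coe_transpose,
      _root_.mul_inv_rev, Matrix.SpecialLinearGroup.coe_mul, Matrix.transpose_mul]

private theorem tau_val {n : ℕ} (g : SpecialLinearGroup (Fin n) ℝ) :
    (tau n g : Matrix (Fin n) (Fin n) ℝ) =
      ((g⁻¹ : SpecialLinearGroup (Fin n) ℝ) : Matrix (Fin n) (Fin n) ℝ)ᵀ := rfl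

private theorem tau_tau {n : ℕ} (g : SpecialLinearGroup (Fin n) ℝ) : tau n (tau n g) = g := by
  apply Subtype.ext
  rw [tau_val, ← map_inv, tau_val, Matrix.transpose_transpose, inv_inv]

private theorem tau_cont (n : ℕ) : Continuous (tau n) := by
  refine continuous_induced_rng.2 ?_
  have h1 : Continuous fun g : SpecialLinearGroup (Fin n) ℝ =>
      ((g⁻¹ : SpecialLinearGroup (Fin n) ℝ) : Matrix (Fin n) (Fin n) ℝ) :=
    continuous_subtype_val.comp continuous_inv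
  exact h1.matrix_transpose

theorem core_d_dual {n d : ℕ} (hd : 0 < d) (hdn : d < n)
    (H Γ : Subgroup (SpecialLinearGroup (Fin n) ℝ))
    (hc : ∃ C : Set (SpecialLinearGroup (Fin n) ℝ), IsCompact C ∧
      ∀ g, ∃ γ ∈ Γ, ∃ h ∈ H, γ * g * h ∈ C)
    (D f : MvPolynomial (Fin n × Fin d) ℝ) (k r : ℕ) (hk : 0 < k) (hr : 0 < r)
    (hD : Wt k D) (hf : Wt r f) (hD0 : D ≠ 0)
    (hDi : ∀ h ∈ H, ∀ v : Fin d → Fin n → ℝ,
      eval (flat fun j => (h : Matrix (Fin n) (Fin n) ℝ) *ᵥ v j) D = eval (flat v) D)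
    (hfi : ∀ γ ∈ Γ, ∀ v : Fin d → Fin n → ℝ,
      eval (flat fun j => (γ : Matrix (Fin n) (Fin n) ℝ)ᵀ *ᵥ v j) f = eval (flat v) f) :
    f = 0 := by
  refine core_d hd hdn (H.map (tau n)) (Γ.map (tau n)) ?_ D f k r hk hr hD hf hD0 ?_ ?_
  · obtain ⟨K, hK, hKg⟩ := hc
    refine ⟨tau n '' K, hK.image (tau_cont n), fun g => ?_⟩
    obtain ⟨γ, hγ, h, hh, hgh⟩ := hKg (tau n g)
    refine ⟨tau n γ, ⟨γ, hγ, rfl⟩, tau n h, ⟨h, hh, rfl⟩, ⟨_, hgh, ?_⟩⟩
    rw [map_mul, map_mul, tau_tau]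
  · rintro _ ⟨h, hh, rfl⟩ b
    rw [tau_val, Matrix.transpose_transpose]
    exact hDi _ (H.inv_mem hh) b
  · rintro _ ⟨γ, hγ, rfl⟩ v
    rw [tau_val]
    exact hfi _ (Γ.inv_mem hγ) v

end Pool.Agent.H9.IQ
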